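import Pool.Agent.H577R3.RM.Stmts

set_option autoImplicit false

/-! Task CC: counting the primes of height one. -/

namespace Pool.Agent.H577R3.RM.CC

open Pool.Agent.Helper777.Prof Pool.Agent.H577R3 Pool.Agent.H577R3.RM

theorem sz_sum {n : ℕ} {ι : Type} [Fintype ι] (h : ι → Lam n) (E A E' : ℕ)
    (hE : ∀ a, Sz E (h a)) (c : ι → ℤ) (hc : ∀ a, |c a| ≤ (A : ℤ))
    (h1 : Fintype.card ι * E ≤ E') (h2 : A * E ≤ E') (h3 : E ≤ E') :
    Sz E' (∑ a, c a • h a) := by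
  choose N u d hN hd hu hh using hE
  let e := (Fintype.equivFin (Σ a, Fin (N a))).symm
  refine ⟨Fintype.card (Σ a, Fin (N a)), fun i => u (e i).1 (e i).2,
    fun i => c (e i).1 * d (e i).1 (e i).2, ?_, ?_, ?_, ?_⟩
  · rw [Fintype.card_sigma]
    simp only [Fintype.card_fin]
    calc ∑ a, N a ≤ ∑ _a : ι, E := Finset.sum_le_sum fun a _ => hN a
      _ = Fintype.card ι * E := by rw [Finset.sum_const, Finset.card_univ, smul_eq_mul]
      _ ≤ E' := h1
  · intro i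
    rw [abs_mul]
    have h4 : |c (e i).1| * |d (e i).1 (e i).2| ≤ (A : ℤ) * (E : ℤ) :=
      mul_le_mul (hc _) (hd _ _) (abs_nonneg _) (by positivity)
    refine h4.trans ?_
    exact_mod_cast h2
  · intro i l
    refine (hu _ _ l).trans ?_
    exact_mod_cast h3
  · rw [Equiv.sum_comp e (fun p : (Σ a, Fin (N a)) => (c p.1 * d p.1 p.2) • X (u p.1 p.2)),
      Fintype.sum_sigma]
    refine Finset.sum_congr rfl fun a _ => ?_
    rw [hh a, Finset.smul_sum]
    refine Finset.sum_congr rfl fun i _ => ?_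
    rw [mul_smul]

theorem taskCC (h1 : TaskCCa) (h2 : TaskCCb) (h3 : TaskCCc) : TaskCC := by
  intro n
  obtain ⟨D1, hD1⟩ := h1 n
  obtain ⟨D2, hD2⟩ := h2 n
  set D' := n ^ n + n + D1 + 1 with hD'
  refine ⟨D' * D2 + 1, ?_⟩
  intro C E q w ι _ h hE hq1 hqE hw hι hSz hgen
  have hE1 : 1 ≤ E := by omega
  obtain ⟨c, hc, hc2⟩ := hD1 C E q w ι h hE hq1 hqE hι hgen
  have hEE' : E ≤ E ^ D' := by
    calc E = E ^ 1 := (pow_one E).symm
      _ ≤ E ^ D' := Nat.pow_le_pow_right hE1 (by omega)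
  have hcard : Fintype.card ι * E ≤ E ^ D' := by
    have h4 : Fintype.card ι ≤ E ^ (n ^ n + n) := by
      calc Fintype.card ι ≤ n ^ n + n := hι
        _ ≤ 2 ^ (n ^ n + n) := Nat.lt_two_pow_self.le
        _ ≤ E ^ (n ^ n + n) := Nat.pow_le_pow_left hE _
    calc Fintype.card ι * E ≤ E ^ (n ^ n + n) * E := Nat.mul_le_mul_right _ h4
      _ = E ^ (n ^ n + n + 1) := (pow_succ _ _).symm
      _ ≤ E ^ D' := Nat.pow_le_pow_right hE1 (by omega)
  have hcoef : E ^ D1 * E ≤ E ^ D' := by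
    rw [← pow_succ]
    exact Nat.pow_le_pow_right hE1 (by omega)
  have hSz' : Sz (E ^ D') (∑ a, c a • h a) :=
    sz_sum h E (E ^ D1) (E ^ D') hSz c (fun a => by
      have := hc a
      push_cast
      exact this) hcard hcoef hEE'
  obtain ⟨P, hP0, hPd, hPc, hP⟩ := hD2 C (E ^ D') q w (∑ a, c a • h a) (hE.trans hEE') hq1
    (hqE.trans hEE') (fun i c' => (hw i c').trans (by exact_mod_cast hEE')) hSz' hc2
  rw [← pow_mul] at hPd hPc
  obtain ⟨SS, hSS, hf⟩ := h3 {c // c ∈ C} P (E ^ (D' * D2)) (E ^ (D' * D2)) hP0 hPd hPc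
  refine ⟨SS, ?_, ?_⟩
  · calc SS.card ≤ E ^ (D' * D2) + E ^ (D' * D2) := hSS
      _ = E ^ (D' * D2) * 2 := by ring
      _ ≤ E ^ (D' * D2) * E := Nat.mul_le_mul_left _ hE
      _ = E ^ (D' * D2 + 1) := (pow_succ _ _).symm
  · intro K _ θ hRad hH hall
    obtain ⟨f, hfi, hker⟩ := hH
    have h5 : evl θ (∑ a, c a • h a) = 0 := by
      rw [map_sum]
      refine Finset.sum_eq_zero fun a _ => ?_
      rw [map_zsmul, hall a, smul_zero]
    have h6 : P ∈ RingHom.ker (evC C θ) := (RingHom.mem_ker).2 (hP K θ hRad h5)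
    rw [hker, Ideal.mem_span_singleton] at h6
    rw [hker]
    exact hf f hfi h6

end Pool.Agent.H577R3.RM.CC
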